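import Mathlib
import Pool.Agent.R762.ND2

/-!
# Perturbing multiply traversed circles into nondegenerate closed curves

For every `n ≥ 4` the plane circle traversed ONCE is, in the `C^∞` topology, a limit of nondegenerate
closed curves of `ℝ^n`: so the least number `m` of traversals, `μ(n)`, is `1` (question Q1).

The perturbation is `(cos t, sin t, ε W(t))` where `W` is the `π`-periodic solution of
`W'' + W = V(2 t)` and `V` is a closed nondegenerate curve in `ℝ^(n-2)`. The start of the induction is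
the circle in `ℝ²` and the curve `(2 cos t + cos 2t, 2 sin t - sin 2t, sin 3t)` in `ℝ³`.
-/

set_option autoImplicit false

namespace Pool.Agent.Results.MP_f07be6_gt.MultipleCircles

open Real
open scoped ContDiff

/-- A smooth closed curve `S¹ = ℝ / 2πℤ → ℝ^n`. -/
def IsClosedCurve {n : ℕ} (γ : ℝ → EuclideanSpace ℝ (Fin n)) : Prop :=
  ContDiff ℝ ∞ γ ∧ ∀ t, γ (t + 2 * π) = γ t

/-- `γ'(t) ∧ γ''(t) ∧ ⋯ ∧ γ^(n)(t) ≠ 0` for every `t`: the first `n` derivatives are linearly
independent at every point. -/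
def Nondegenerate {n : ℕ} (γ : ℝ → EuclideanSpace ℝ (Fin n)) : Prop :=
  ∀ t, LinearIndependent ℝ (fun j : Fin n => iteratedDeriv (j + 1) γ t)

/-- The plane unit circle traversed `m` times, `c_m(t) = (cos mt, sin mt, 0, …, 0)`. -/
noncomputable def circle (n m : ℕ) (t : ℝ) : EuclideanSpace ℝ (Fin n) :=
  WithLp.toLp 2 fun i => if (i : ℕ) = 0 then cos (m * t) else if (i : ℕ) = 1 then sin (m * t) else 0

/-- Every `C^∞`-neighbourhood of `c_m` contains a nondegenerate closed curve of `ℝ^n`: for each order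
`N` and each `δ > 0` there is such a curve all of whose derivatives of the orders `0, …, N` differ
by less than `δ` from those of `c_m`, everywhere. -/
def Perturbable (n m : ℕ) : Prop :=
  ∀ (N : ℕ) (δ : ℝ), 0 < δ → ∃ γ : ℝ → EuclideanSpace ℝ (Fin n), IsClosedCurve γ ∧
    Nondegenerate γ ∧ ∀ j ≤ N, ∀ t, ‖iteratedDeriv j γ t - iteratedDeriv j (circle n m) t‖ < δ

section

variable {n : ℕ}

lemma smooth_iter {γ : ℝ → EuclideanSpace ℝ (Fin n)} (h : ContDiff ℝ ∞ γ) (j : ℕ) :
    ContDiff ℝ ∞ (iteratedDeriv j γ) := by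
  induction j with
  | zero => simpa using h
  | succ j ih =>
    rw [iteratedDeriv_succ]
    exact (contDiff_infty_iff_deriv.1 ih).2

lemma iter_coord {γ : ℝ → EuclideanSpace ℝ (Fin n)} (h : ContDiff ℝ ∞ γ) (j : ℕ) :
    ∀ (t : ℝ) (i : Fin n), iteratedDeriv j γ t i = iteratedDeriv j (fun s => γ s i) t := by
  induction j with
  | zero => intro t i; simp
  | succ j ih =>
    intro t i
    rw [iteratedDeriv_succ, iteratedDeriv_succ]
    have e : iteratedDeriv j (fun s => γ s i) = fun s => iteratedDeriv j γ s i :=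
      funext fun s => (ih s i).symm
    rw [e]
    have hd : DifferentiableAt ℝ (iteratedDeriv j γ) t :=
      (contDiff_infty_iff_deriv.1 (smooth_iter h j)).1 t
    have := (EuclideanSpace.proj (𝕜 := ℝ) i).hasFDerivAt.comp_hasDerivAt t hd.hasDerivAt
    exact this.deriv.symm

lemma nondegenerate_of {V : Fin n → ℝ → ℝ} (hV : ∀ i, ContDiff ℝ ∞ (V i))
    (hN : Pool.Agent.R762.ND.Nondeg n V) :
    Nondegenerate (fun t => (WithLp.toLp 2 fun i => V i t : EuclideanSpace ℝ (Fin n))) := by
  intro t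
  have hs : ContDiff ℝ ∞ (fun t => (WithLp.toLp 2 fun i => V i t : EuclideanSpace ℝ (Fin n))) :=
    contDiff_euclidean.2 hV
  obtain ⟨M, hM⟩ : ∃ M : Matrix (Fin n) (Fin n) ℝ,
      M = Matrix.of fun (j i : Fin n) => iteratedDeriv ((j : ℕ) + 1) (V i) t := ⟨_, rfl⟩
  have hinj : Function.Injective M.mulVec := by
    rw [← Matrix.coe_mulVecLin, ← LinearMap.ker_eq_bot, LinearMap.ker_eq_bot']
    intro a ha
    apply hN t a
    intro j h1 h2
    have h3 := congrFun ha ⟨j - 1, by omega⟩
    rw [Matrix.mulVecLin_apply, hM] at h3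
    simp only [Matrix.mulVec, dotProduct, Matrix.of_apply, Pi.zero_apply,
      Nat.sub_add_cancel h1] at h3
    have e : (fun s => ∑ i, a i * V i s) = ∑ i, fun s => a i * V i s := by
      funext s; rw [Finset.sum_apply]
    rw [e, iteratedDeriv_sum]
    · rw [← h3]
      refine Finset.sum_congr rfl fun i _ => ?_
      rw [Pool.Agent.R762.ND.iter_scale (hV i), mul_comm]
    · intro i _
      exact (contDiff_infty.1 (contDiff_const.mul (hV i)) j).contDiffAt
  have hrow := Matrix.linearIndependent_rows_iff_isUnit.2 (Matrix.mulVec_injective_iff_isUnit.1 hinj)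
  have := hrow.map' (WithLp.linearEquiv 2 ℝ (Fin n → ℝ)).symm.toLinearMap
    (LinearEquiv.ker _)
  have e : (fun j : Fin n => iteratedDeriv ((j : ℕ) + 1)
      (fun t => (WithLp.toLp 2 fun i => V i t : EuclideanSpace ℝ (Fin n))) t) =
      ((WithLp.linearEquiv 2 ℝ (Fin n → ℝ)).symm.toLinearMap ∘ M.row) := by
    funext j
    apply (WithLp.linearEquiv 2 ℝ (Fin n → ℝ)).injective
    funext i
    change iteratedDeriv ((j : ℕ) + 1)
      (fun t => (WithLp.toLp 2 fun i => V i t : EuclideanSpace ℝ (Fin n))) t i = M j i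
    rw [iter_coord hs, hM]
    rfl
  rw [e]
  exact this

end

/-- The circle traversed once can be perturbed in all dimensions at least `4`. -/
lemma perturbable_one (k : ℕ) (hk : 2 ≤ k) : Perturbable (k + 2) 1 := by
  intro N δ hδ
  obtain ⟨V, hV, hp, hN⟩ := Pool.Agent.R762.ND.ex_all k hk
  obtain ⟨W, hW, hWp, hVW⟩ := Pool.Agent.R762.ND.ex_osc hV hp
  -- a common bound for the derivatives of the functions `W i`
  have hB : ∃ B, 0 < B ∧ ∀ i, ∀ j ≤ N, ∀ t, |iteratedDeriv j (W i) t| ≤ B := by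
    have h1 : ∀ (i : Fin k) (j : Fin (N + 1)), ∃ B, ∀ t, |iteratedDeriv j (W i) t| ≤ B :=
      fun i j => Pool.Agent.R762.ND.bdd_of_per (Pool.Agent.R762.ND.iter_smooth (hW i) j).continuous
        (Pool.Agent.R762.ND.iter_per (hWp i) j)
    choose B hB using h1
    refine ⟨1 + ∑ i, ∑ j, |B i j|, by positivity, fun i j hj t => ?_⟩
    have h2 := hB i ⟨j, by omega⟩ t
    have h3 : |B i ⟨j, by omega⟩| ≤ ∑ j, |B i j| :=
      Finset.single_le_sum (f := fun j => |B i j|) (fun _ _ => abs_nonneg _) (Finset.mem_univ _)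
    have h4 : ∑ j, |B i j| ≤ ∑ i, ∑ j, |B i j| :=
      Finset.single_le_sum (f := fun i => ∑ j, |B i j|)
        (fun _ _ => Finset.sum_nonneg fun _ _ => abs_nonneg _) (Finset.mem_univ _)
    have h5 := le_abs_self (B i ⟨j, by omega⟩)
    simp only at h2
    linarith
  obtain ⟨B, hB0, hB⟩ := hB
  obtain ⟨ε, hε⟩ : ∃ ε, ε = δ / (2 * (k + 1) * B) := ⟨_, rfl⟩
  have hε0 : 0 < ε := by rw [hε]; positivity
  obtain ⟨U, hU⟩ : ∃ U : Fin (k + 2) → ℝ → ℝ,
    U = Fin.cons cos (Fin.cons sin fun i t => ε * W i t) := ⟨_, rfl⟩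
  have hUs : ∀ i, ContDiff ℝ ∞ (U i) := by
    intro i
    rw [hU]
    refine Fin.cases contDiff_cos (fun i => ?_) i
    refine Fin.cases contDiff_sin (fun i => ?_) i
    exact contDiff_const.mul (hW i)
  have hγs : ContDiff ℝ ∞ (fun t => (WithLp.toLp 2 fun i => U i t : EuclideanSpace ℝ (Fin (k + 2)))) :=
    contDiff_euclidean.2 hUs
  have hcs : ContDiff ℝ ∞ (circle (k + 2) 1) := by
    apply contDiff_euclidean.2
    intro i
    show ContDiff ℝ ∞ fun t => if (i : ℕ) = 0 then cos ((1 : ℕ) * t) else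
      if (i : ℕ) = 1 then sin ((1 : ℕ) * t) else 0
    split_ifs
    · fun_prop
    · fun_prop
    · exact contDiff_const
  refine ⟨_, ⟨hγs, ?_⟩, nondegenerate_of hUs (hU ▸ Pool.Agent.R762.ND.step hV hN hW hVW hε0.ne'),
    ?_⟩
  · intro t
    have : ∀ i, U i (t + 2 * π) = U i t := by
      intro i
      rw [hU]
      refine Fin.cases (cos_add_two_pi t) (fun i => ?_) i
      refine Fin.cases (sin_add_two_pi t) (fun i => ?_) i
      simp only [Fin.cons_succ, hWp]
    simp only [this]
  · intro j hj t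
    have hco : ∀ i, ‖(iteratedDeriv j (fun t => (WithLp.toLp 2 fun i => U i t :
        EuclideanSpace ℝ (Fin (k + 2)))) t - iteratedDeriv j (circle (k + 2) 1) t) i‖ ≤
        δ / (2 * (k + 1)) := by
      intro i
      rw [PiLp.sub_apply, iter_coord hγs, iter_coord hcs]
      refine Fin.cases ?_ (fun i => Fin.cases ?_ (fun i => ?_) i) i
      · have e1 : (fun s => (WithLp.toLp 2 fun i => U i s : EuclideanSpace ℝ (Fin (k + 2))) 0) =
            cos := by rw [hU]; rfl
        have e2 : (fun s => circle (k + 2) 1 s 0) = cos := by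
          funext s; simp [circle]
        rw [e1, e2, sub_self, norm_zero]; positivity
      · have e1 : (fun s => (WithLp.toLp 2 fun i => U i s : EuclideanSpace ℝ (Fin (k + 2)))
            (Fin.succ 0)) = sin := by rw [hU]; rfl
        have e2 : (fun s => circle (k + 2) 1 s (Fin.succ 0)) = sin := by
          funext s; simp [circle]
        rw [e1, e2, sub_self, norm_zero]; positivity
      · have e1 : (fun s => (WithLp.toLp 2 fun i => U i s : EuclideanSpace ℝ (Fin (k + 2)))
            i.succ.succ) = fun s => ε * W i s := by rw [hU]; rfl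
        have e2 : (fun s => circle (k + 2) 1 s i.succ.succ) = fun _ => 0 := by
          funext s; simp [circle]
        have e3 : iteratedDeriv j (fun _ : ℝ => (0 : ℝ)) t = 0 := by
          rw [iteratedDeriv_const]; simp
        rw [e1, e2, e3, sub_zero, Pool.Agent.R762.ND.iter_scale (hW i), norm_mul,
          Real.norm_eq_abs, Real.norm_eq_abs, abs_of_pos hε0]
        calc ε * |iteratedDeriv j (W i) t| ≤ ε * B :=
              mul_le_mul_of_nonneg_left (hB i j hj t) hε0.le
          _ = δ / (2 * (k + 1)) := by rw [hε]; field_simp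
    obtain ⟨x, hx⟩ : ∃ x : EuclideanSpace ℝ (Fin (k + 2)), x =
      iteratedDeriv j (fun t => (WithLp.toLp 2 fun i => U i t : EuclideanSpace ℝ (Fin (k + 2)))) t -
        iteratedDeriv j (circle (k + 2) 1) t := ⟨_, rfl⟩
    rw [← hx] at hco ⊢
    have h0 : (0:ℝ) ≤ δ / (2 * (k + 1)) := by positivity
    have h1 : ‖x‖ ^ 2 ≤ (k + 2) * (δ / (2 * (k + 1))) ^ 2 := by
      rw [EuclideanSpace.norm_sq_eq]
      calc ∑ i, ‖x i‖ ^ 2 ≤ ∑ _i : Fin (k + 2), (δ / (2 * (k + 1))) ^ 2 :=
            Finset.sum_le_sum fun i _ => pow_le_pow_left₀ (norm_nonneg _) (hco i) 2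
        _ = (k + 2) * (δ / (2 * (k + 1))) ^ 2 := by simp
    have h2 : ((k:ℝ) + 2) * (δ / (2 * (k + 1))) ^ 2 < δ ^ 2 := by
      have hk0 : (0:ℝ) ≤ k := Nat.cast_nonneg k
      rw [div_pow, mul_div_assoc', div_lt_iff₀ (by positivity)]
      have : 0 < δ ^ 2 := by positivity
      nlinarith [mul_nonneg this.le hk0, mul_nonneg this.le (mul_nonneg hk0 hk0)]
    exact lt_of_pow_lt_pow_left₀ 2 hδ.le (h1.trans_lt h2)

/-- **Answer to Q1.** For every `n ≥ 4` the least number `m ≥ 1` such that every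
`C^∞`-neighbourhood of the `m` times traversed circle contains a nondegenerate closed curve of `ℝ^n` is
`μ(n) = 1`. -/
theorem result : ∀ n : ℕ, 4 ≤ n → IsLeast {m : ℕ | 1 ≤ m ∧ Perturbable n m} 1 := by
  intro n hn
  refine ⟨⟨le_rfl, ?_⟩, fun m hm => hm.1⟩
  obtain ⟨k, rfl⟩ : ∃ k, n = k + 2 := ⟨n - 2, by omega⟩
  exact perturbable_one k (by omega)

end Pool.Agent.Results.MP_f07be6_gt.MultipleCircles
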