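import Mathlib
import Pool.Agent.R762.Fen2
import Pool.Agent.Results.MP_f07be6_gt.MultipleCircles

/-!
# The length of the Frenet frame of a nondegenerate closed curve (question Q2)

For all `n ≥ 4` the Frenet frame of a nondegenerate closed curve of `ℝ^n` is longer than
`2 π μ(n)`. The proof: `μ(n) = 1` (question Q1), the total curvature `∫ κ₁ ds` is at least `2 π` by
Fenchel's theorem in `ℝ^n` (proved in `Pool.Agent.R762.Fen1`), and `κ₂` has no zeros.
-/

set_option autoImplicit false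

namespace Pool.Agent.Results.MP_f07be6_gt.FrameLength

open Real Pool.Agent.Results.MP_f07be6_gt.MultipleCircles
open scoped ContDiff RealInnerProductSpace

/-- The Frenet frame `e_1(t), …, e_n(t)` (here `e_(i+1) = frame γ i`, for `i < n`): it is obtained by
the Gram-Schmidt process from `γ'(t), γ''(t), …, γ^(n)(t)`. -/
noncomputable def frame {n : ℕ} (γ : ℝ → EuclideanSpace ℝ (Fin n)) (i : ℕ) (t : ℝ) :
    EuclideanSpace ℝ (Fin n) :=
  InnerProductSpace.gramSchmidtNormed ℝ (fun j : ℕ => iteratedDeriv (j + 1) γ t) i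

/-- The curvatures `κ_1, …, κ_(n-1)` (here `κ_(i+1) = curvature γ i`, for `i < n - 1`), read off
from the structure equations: `κ_(i+1) = ⟨d e_(i+1) / ds, e_(i+2)⟩` with `ds = |γ'(t)| dt`. -/
noncomputable def curvature {n : ℕ} (γ : ℝ → EuclideanSpace ℝ (Fin n)) (i : ℕ) (t : ℝ) : ℝ :=
  ⟪deriv (frame γ i) t, frame γ (i + 1) t⟫ / ‖deriv γ t‖

/-- The length `L(E) = ∫ (κ_1 ^ 2 + ⋯ + κ_(n-1) ^ 2) ^ (1/2) ds` of the Frenet frame. -/
noncomputable def frameLength {n : ℕ} (γ : ℝ → EuclideanSpace ℝ (Fin n)) : ℝ :=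
  ∫ t in (0 : ℝ)..(2 * π), √(∑ i ∈ Finset.range (n - 1), curvature γ i t ^ 2) * ‖deriv γ t‖

/-- `μ(n)`: the least `m ≥ 1` such that every `C^∞`-neighbourhood of the plane circle traversed `m`
times contains a nondegenerate closed curve of `ℝ^n`. -/
noncomputable def mu (n : ℕ) : ℕ := sInf {m : ℕ | 1 ≤ m ∧ Perturbable n m}

lemma mu_eq_one (n : ℕ) (hn : 4 ≤ n) : mu n = 1 := by
  have h := MultipleCircles.result n hn
  exact h.csInf_eq

/-- For every `n ≥ 4` and every nondegenerate closed curve `γ` in `ℝ^n`, the length of its Frenet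
frame satisfies `L(E) > 2 π μ(n)`. -/
theorem result : ∀ n : ℕ, 4 ≤ n → ∀ γ : ℝ → EuclideanSpace ℝ (Fin n),
    IsClosedCurve γ → Nondegenerate γ → 2 * π * mu n < frameLength γ := by
  intro n hn γ hγ hN
  rw [mu_eq_one n hn, Nat.cast_one, mul_one]
  exact Pool.Agent.R762.Fen.frame_length (by omega) hγ.1 hγ.2 hN

end Pool.Agent.Results.MP_f07be6_gt.FrameLength
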